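import Pool.Agent.K9h98.TI.ConeTI

/-!
# A separable nuclear stably finite C*-algebra which is not locally approximable by type I
C*-algebras

The algebra is the algebra of the continuous functions `[0, 1] → O_2` which are scalar at `0`
(the unitised cone over the Cuntz algebra `O_2`), and the finite set consists of the two functions
`t ↦ t s_1` and `t ↦ t s_2`. A C*-subalgebra `B` which contains approximations of these two functions
has a quotient `D` (the closure of the image under the evaluation at `1`) which is unital and contains
two approximate isometries with almost orthogonal ranges. An irreducible representation of `D` which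
vanishes on a maximal ideal does not contain the compact operators: otherwise the identity would be
compact, but in finite dimension there are no such approximate isometries. Hence `B` is not of type I.
-/

set_option autoImplicit false

open scoped CStarAlgebra ComplexOrder

namespace Pool.Agent.Results.MP_b9f29c_an.ConeOverCuntz

/-- A C*-algebra is nuclear: the identity is a point-norm limit of compositions
`A → Mₙ(ℂ) → A` of completely positive contractions. -/
def IsNuclear (A : Type) [CStarAlgebra A] [PartialOrder A] [StarOrderedRing A] : Prop :=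
  ∀ (F : Finset A) (ε : ℝ), 0 < ε → ∃ (n : ℕ) (φ : A →CP CStarMatrix (Fin n) (Fin n) ℂ)
    (ψ : CStarMatrix (Fin n) (Fin n) ℂ →CP A),
    (∀ x, ‖φ x‖ ≤ ‖x‖) ∧ (∀ y, ‖ψ y‖ ≤ ‖y‖) ∧ ∀ x ∈ F, ‖ψ (φ x) - x‖ < ε

/-- A unital C*-algebra is stably finite: every isometry in a matrix algebra over it is unitary. -/
def IsStablyFinite (A : Type) [CStarAlgebra A] : Prop :=
  ∀ (n : ℕ) (v : Matrix (Fin n) (Fin n) A), star v * v = 1 → v * star v = 1

/-- A representation of a *-algebra on a Hilbert space is irreducible: it is non-zero and has no
closed invariant subspaces except `0` and the whole space. -/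
def IsIrreducible {B K : Type} [NonUnitalRing B] [StarRing B] [Module ℂ B]
    [NormedAddCommGroup K] [InnerProductSpace ℂ K] [CompleteSpace K]
    (π : B →⋆ₙₐ[ℂ] (K →L[ℂ] K)) : Prop :=
  π ≠ 0 ∧ ∀ U : Submodule ℂ K, IsClosed (U : Set K) → (∀ b, ∀ x ∈ U, π b x ∈ U) → U = ⊥ ∨ U = ⊤

/-- A C*-algebra is of type I: the image of every irreducible representation contains all compact
operators. -/
def IsTypeI (B : Type) [NonUnitalRing B] [StarRing B] [Module ℂ B] : Prop :=
  ∀ (K : Type) [NormedAddCommGroup K] [InnerProductSpace ℂ K] [CompleteSpace K]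
    (π : B →⋆ₙₐ[ℂ] (K →L[ℂ] K)), IsIrreducible π →
    ∀ T : K →L[ℂ] K, IsCompactOperator T → ∃ b, π b = T

/-- There is a unital, separable, nuclear and stably finite C*-algebra `A` with a finite subset `F`
such that no C*-subalgebra `B` of `A` (a norm closed *-subalgebra, with or without unit) which is of
type I satisfies `dist(x, B) < 1 / 100` for all `x ∈ F`. -/
theorem result : ∃ (A : Type) (_ : CStarAlgebra A) (_ : PartialOrder A) (_ : StarOrderedRing A),
    TopologicalSpace.SeparableSpace A ∧ IsNuclear A ∧ IsStablyFinite A ∧
    ∃ F : Finset A, ∀ B : NonUnitalStarSubalgebra ℂ A, IsClosed (B : Set A) → IsTypeI B →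
      ∃ x ∈ F, ∀ y ∈ B, 1 / 100 ≤ ‖x - y‖ := by
  classical
  refine ⟨Pool.Agent.W658.Cone.CA, inferInstance, inferInstance, inferInstance,
    Pool.Agent.W658.Cone.separable_CA, Pool.Agent.W658.Cone.nuclear_CA,
    Pool.Agent.K9h98.TI.stablyFinite_CA,
    {Pool.Agent.K9h98.TI.gen true, Pool.Agent.K9h98.TI.gen false}, ?_⟩
  intro B _ hB
  by_contra hcon
  push Not at hcon
  refine Pool.Agent.K9h98.TI.not_typeI_of_near B ?_ hB
  intro b
  apply hcon
  cases b
  · simp
  · simp

end Pool.Agent.Results.MP_b9f29c_an.ConeOverCuntz
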